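import Pool.Agent.Helper95.PA

set_option autoImplicit false

open FirstOrder FirstOrder.Language

namespace Pool.Agent.Results.MP_3b452d_lc.AllFiniteInterstructure

/-- Every nonempty finite lattice `L` is isomorphic to the lattice of all elementary substructures
`K` with `M ≤ K ≤ N` for some model `N` of Peano arithmetic and some elementary substructure `M`
of `N` (an interstructure lattice). -/
theorem result :
    ∀ (L : Type) [Lattice L] [Finite L] [Nonempty L],
      ∃ (N : Type) (_ : Language.ring.Structure N),
        (∀ x : N, Structure.funMap FirstOrder.Ring.negFunc ![x] = x) ∧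
        (∀ x : N, Structure.funMap FirstOrder.Ring.addFunc
            ![x, Structure.funMap FirstOrder.Ring.oneFunc Fin.elim0] ≠
            (Structure.funMap FirstOrder.Ring.zeroFunc Fin.elim0 : N)) ∧
        (∀ x y : N, Structure.funMap FirstOrder.Ring.addFunc
            ![x, Structure.funMap FirstOrder.Ring.oneFunc Fin.elim0] =
            Structure.funMap FirstOrder.Ring.addFunc
            ![y, Structure.funMap FirstOrder.Ring.oneFunc Fin.elim0] → x = y) ∧
        (∀ x : N, Structure.funMap FirstOrder.Ring.addFunc
            ![x, Structure.funMap FirstOrder.Ring.zeroFunc Fin.elim0] = x) ∧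
        (∀ x y : N, Structure.funMap FirstOrder.Ring.addFunc
            ![x, Structure.funMap FirstOrder.Ring.addFunc
              ![y, Structure.funMap FirstOrder.Ring.oneFunc Fin.elim0] ] =
            Structure.funMap FirstOrder.Ring.addFunc
            ![Structure.funMap FirstOrder.Ring.addFunc ![x, y],
              Structure.funMap FirstOrder.Ring.oneFunc Fin.elim0]) ∧
        (∀ x : N, Structure.funMap FirstOrder.Ring.mulFunc
            ![x, Structure.funMap FirstOrder.Ring.zeroFunc Fin.elim0] =
            (Structure.funMap FirstOrder.Ring.zeroFunc Fin.elim0 : N)) ∧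
        (∀ x y : N, Structure.funMap FirstOrder.Ring.mulFunc
            ![x, Structure.funMap FirstOrder.Ring.addFunc
              ![y, Structure.funMap FirstOrder.Ring.oneFunc Fin.elim0] ] =
            Structure.funMap FirstOrder.Ring.addFunc
            ![Structure.funMap FirstOrder.Ring.mulFunc ![x, y], x]) ∧
        (∀ (n : ℕ) (φ : Language.ring.Formula (Fin (n + 1))) (v : Fin n → N),
          φ.Realize (Fin.cons (Structure.funMap FirstOrder.Ring.zeroFunc Fin.elim0 : N) v :
            Fin (n + 1) → N) →
          (∀ x : N, φ.Realize (Fin.cons x v : Fin (n + 1) → N) →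
            φ.Realize (Fin.cons (Structure.funMap FirstOrder.Ring.addFunc
              ![x, Structure.funMap FirstOrder.Ring.oneFunc Fin.elim0] : N) v :
                Fin (n + 1) → N)) →
          ∀ x : N, φ.Realize (Fin.cons x v : Fin (n + 1) → N)) ∧
        ∃ M : Language.ring.ElementarySubstructure N,
          Nonempty (L ≃o {K : Language.ring.ElementarySubstructure N // M ≤ K}) := by
  intro L instL instF instN
  have main : ∃ (N : Language.ring.ElementarySubstructure Helper95.UU)
      (M' : Language.ring.ElementarySubstructure N),
      Nonempty (L ≃o {K : Language.ring.ElementarySubstructure N // M' ≤ K}) := by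
    rcases subsingleton_or_nontrivial L with hL | hL
    · have l : L := Classical.arbitrary L
      refine ⟨⊤, ⊤, ⟨?_⟩⟩
      exact {
        toFun := fun _ => ⟨⊤, le_rfl⟩
        invFun := fun _ => l
        left_inv := fun _ => Subsingleton.elim _ _
        right_inv := by
          rintro ⟨K, hK⟩
          apply Subtype.ext
          apply SetLike.ext
          intro x
          exact ⟨fun _ => hK (ElementarySubstructure.mem_top x),
            fun _ => ElementarySubstructure.mem_top x⟩
        map_rel_iff' := by
          intro a b
          constructor
          · intro _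
            exact le_of_eq (Subsingleton.elim _ _)
          · intro _
            exact le_rfl }
    · have : Fintype L := Fintype.ofFinite L
      let _ : BoundedOrder L := Fintype.toBoundedOrder L
      exact Helper95.main_nontrivial L
  obtain ⟨N, M', hM'⟩ := main
  exact ⟨N, inferInstance, Helper95.n_neg N, Helper95.n_succ_ne N, Helper95.n_succ_inj N,
    Helper95.n_add_zero N, Helper95.n_add_succ N, Helper95.n_mul_zero N, Helper95.n_mul_succ N,
    Helper95.n_induction N, M', hM'⟩

end Pool.Agent.Results.MP_3b452d_lc.AllFiniteInterstructure
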