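import Pool.Agent.Helper97.DB.Norm
import Pool.Agent.Helper97.DB.M3

/-!
# Extensions of representable lattices by congruence normal kernels

A finite lattice `L` which has a homomorphism onto a representable lattice `K` is representable if every join
irreducible element collapsed by the homomorphism can be separated by a congruence from every meet irreducible
element above it. In particular all finite congruence normal lattices and all their finite subdirect products
with representable lattices are representable.
-/

set_option autoImplicit false

namespace Pool.Agent.Results.MP_3b452d_lc.CongruenceNormal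

/-- `L` is isomorphic to the congruence lattice of a finite algebra. -/
def Rep (L : Type) [LE L] : Prop :=
  ∃ (A : Type) (_ : Finite A) (_ : Nonempty A) (F : Set (Σ k : ℕ, (Fin k → A) → A)),
    Nonempty (L ≃o {r : Setoid A // ∀ f ∈ F, ∀ x y : Fin f.1 → A,
      (∀ i, r.r (x i) (y i)) → r.r (f.2 x) (f.2 y)})

/-- The homomorphism `f` identifies `p` with an element below `p`. -/
def Down {L M : Type} [Lattice L] [Lattice M] (f : LatticeHom L M) (p : L) : Prop := ∃ r < p, f r = f p

/-- The homomorphism `f` identifies `m` with an element above `m`. -/
def Up {L M : Type} [Lattice L] [Lattice M] (f : LatticeHom L M) (m : L) : Prop := ∃ r, m < r ∧ f r = f m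

/-- Some homomorphism collapses exactly one of the quotients `p / p_*` and `m^* / m`. -/
def Separated {L : Type} [Lattice L] (p m : L) : Prop :=
  ∃ (M : Type) (_ : Lattice M) (f : LatticeHom L M), ¬ (Down f p ↔ Up f m)

/-- Congruence normal lattices (Day). -/
def CongruenceNormal (C : Type) [Lattice C] : Prop :=
  ∀ p m : C, SupIrred p → InfIrred m → p ≤ m → Separated p m

/-- The same condition for the join irreducible elements collapsed by a homomorphism. -/
def NormalKernel {L K : Type} [Lattice L] [Lattice K] (π : LatticeHom L K) : Prop :=
  ∀ p m : L, SupIrred p → InfIrred m → p ≤ m → Down π p → Separated p m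

open Pool.Agent.H33WL Pool.Agent.Helper97.DB in
/-- The theorem. -/
theorem result :
    (∀ (L K : Type) [Lattice L] [Finite L] [Lattice K] (π : LatticeHom L K), Function.Surjective π →
      Rep K → NormalKernel π → Rep L) ∧
    (∀ (L K C : Type) [Lattice L] [Finite L] [Lattice K] [Lattice C] (π : LatticeHom L K)
      (ν : LatticeHom L C), Function.Surjective π → Function.Surjective ν →
      (∀ x y, π x = π y → ν x = ν y → x = y) → Rep K → CongruenceNormal C → Rep L) ∧
    (∀ (L ι : Type) [Lattice L] [Finite L] [Nonempty L] [Finite ι]
      (π : LatticeHom L (ι → Setoid (Fin 3))),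
      (∀ i, (Set.range fun x => π x i) = {⊥, ⊤} ∨ Function.Surjective fun x => π x i) →
      NormalKernel π → Rep L) := by
  have himg : ∀ (L K : Type) [Lattice L] [Lattice K] (π : LatticeHom L K), Function.Surjective π →
      Rep K → Representable {k : K // ∃ x, π x = k} := by
    intro L K _ _ π hπ hK
    refine rep_of_iso ?_ (show Representable K from hK)
    exact
      { toFun := fun k => ⟨k, hπ k⟩
        invFun := fun k => k.1
        left_inv := fun _ => rfl
        right_inv := fun _ => rfl
        map_rel_iff' := Iff.rfl }
  refine ⟨?_, ?_, ?_⟩
  · intro L K _ _ _ π hπ hK hN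
    exact rep_ext π (himg L K π hπ hK) hN
  · intro L K C _ _ _ _ π ν hπ hν hinj hK hC
    exact rep_ext π (himg L K π hπ hK) (sub_normal π ν hinj hν hC)
  · intro L ι _ _ _ _ π hπ hN
    exact rep_ext π (rep_M3 π hπ) hN

end Pool.Agent.Results.MP_3b452d_lc.CongruenceNormal
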