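import Pool.Agent.Helper97.DB.Int

/-!
# Families of intervals over a representable lattice

Let `K` and `D` be representable lattices and `φ ≤ Φ` two monotone maps from `K` to `D`. Then the ordered set of
the pairs `(x, y)` with `φ x ≤ y ≤ Φ x` is a representable lattice.
-/

set_option autoImplicit false

namespace Pool.Agent.Results.MP_3b452d_lc.IntervalFamilies

/-- `L` is isomorphic to the congruence lattice of a finite algebra. -/
def Rep (L : Type) [LE L] : Prop :=
  ∃ (A : Type) (_ : Finite A) (_ : Nonempty A) (F : Set (Σ k : ℕ, (Fin k → A) → A)),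
    Nonempty (L ≃o {r : Setoid A // ∀ f ∈ F, ∀ x y : Fin f.1 → A,
      (∀ i, r.r (x i) (y i)) → r.r (f.2 x) (f.2 y)})

/-- The theorem. -/
theorem result (K D : Type) [PartialOrder K] [PartialOrder D] (φ Φ : K → D) (hφ : Monotone φ)
    (hΦ : Monotone Φ) (h : ∀ x, φ x ≤ Φ x) (hK : Rep K) (hD : Rep D) :
    Rep {p : K × D // φ p.1 ≤ p.2 ∧ p.2 ≤ Φ p.1} :=
  Pool.Agent.Helper97.DB.rep_int hK hD φ Φ hφ hΦ h

end Pool.Agent.Results.MP_3b452d_lc.IntervalFamilies
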