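import Pool.Agent.Helper33.WL.Seven
import Pool.Agent.Helper71.SL.Main

/-!
# Every lattice with at most seven elements is the congruence lattice of a finite algebra

The last missing case was DeMeo's seven-element lattice `L_7` (the winged `2 × 3`); it is the lattice
of the subgroups of `SL_2(64)` which contain `SL_2(2)`. More generally the lattice of the subgroups of
`SL_2(2^n)` which contain `SL_2(2)` is determined for all `n`.
-/

set_option autoImplicit false

namespace Pool.Agent.Results.MP_3b452d_lc.SevenElements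

/-- `2^d - (-1)^d`. -/
def tor (d : ℕ) : ℕ := if Even d then 2 ^ d - 1 else 2 ^ d + 1

/-- The pairs `(m, 1)` with `3 ∣ m ∣ 2^n - (-1)^n` and the pairs `(2^d - (-1)^d, d)` with `d ∣ n`. -/
def Lam (n : ℕ) : Type :=
  {p : ℕ × ℕ // (3 ∣ p.1 ∧ p.1 ∣ tor n ∧ p.2 = 1) ∨ (p.2 ∣ n ∧ p.1 = tor p.2)}

/-- Divisibility of both coordinates. -/
instance (n : ℕ) : LE (Lam n) := ⟨fun p q => p.1.1 ∣ q.1.1 ∧ p.1.2 ∣ q.1.2⟩

theorem tor_eq (d : ℕ) : tor d = H33WL.tor d := rfl

open H33WL

/-- The set of matrices with entries `0`, `1` and `S = SL_2(2)`. -/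
theorem SS_le_iff {K : Type} [Field K] [CharP K 2] (X : Subgroup (G2 K)) :
    SS K ≤ X ↔ ∀ x : Matrix.SpecialLinearGroup (Fin 2) K,
      (∀ i j, x.1 i j = 0 ∨ x.1 i j = 1) → x ∈ X := by
  constructor
  · intro h x hx
    obtain ⟨hu, hw⟩ := SS_le.1 h
    have hd := det_one x
    have e2 : (1 : K) + 1 = 0 := two_zero 1
    -- the six matrices
    rcases hx 0 0 with h00 | h00 <;> rcases hx 0 1 with h01 | h01 <;>
      rcases hx 1 0 with h10 | h10 <;> rcases hx 1 1 with h11 | h11 <;>
      rw [h00, h01, h10, h11] at hd <;> (try simp [e2] at hd)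
    · -- `(0 1; 1 0)`
      have : x = ww K := g_ext (by rw [h00, ww00]) (by rw [h01, ww01]) (by rw [h10, ww10])
        (by rw [h11, ww11])
      rw [this]
      exact hw
    · -- `(0 1; 1 1)`
      have : x = ww K * uu 1 := g_ext (by simp [h00]) (by simp [h01]) (by simp [h10])
        (by simp [h11])
      rw [this]
      exact X.mul_mem hw hu
    · -- `(1 0; 0 1)`
      have : x = 1 := g_ext (by simp [h00]) (by simp [h01]) (by simp [h10])
        (by simp [h11])
      rw [this]
      exact X.one_mem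
    · -- `(1 0; 1 1)`
      have : x = ww K * uu 1 * ww K := g_ext (by simp [h00]) (by simp [h01]) (by simp [h10])
        (by simp [h11])
      rw [this]
      exact X.mul_mem (X.mul_mem hw hu) hw
    · -- `(1 1; 0 1)`
      have : x = uu 1 := g_ext (by simp [h00]) (by simp [h01]) (by simp [h10])
        (by simp [h11])
      rw [this]
      exact hu
    · -- `(1 1; 1 0)`
      have : x = uu 1 * ww K := g_ext (by simp [h00]) (by simp [h01]) (by simp [h10])
        (by simp [h11])
      rw [this]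
      exact X.mul_mem hu hw
  · intro h
    rw [SS_le]
    constructor
    · apply h
      intro i j
      fin_cases i <;> fin_cases j <;> simp [uu]
    · apply h
      intro i j
      fin_cases i <;> fin_cases j <;> simp [ww]

/-- (1) Every lattice with at most seven elements is isomorphic to the congruence lattice of a finite
algebra. (2) For every `n ≥ 1` and every field `K` with `2^n` elements the lattice of the subgroups of
`SL_2(K)` which contain `SL_2(2)` (all matrices with entries `0, 1`) is isomorphic to `Lam n`, and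
`Lam n` is isomorphic to the congruence lattice of a finite algebra. -/
theorem result :
    (∀ (L : Type) [Lattice L] [Finite L] [Nonempty L], Nat.card L ≤ 7 →
      ∃ (A : Type) (_ : Finite A) (_ : Nonempty A) (F : Set (Σ k : ℕ, (Fin k → A) → A)),
        Nonempty (L ≃o {r : Setoid A // ∀ f ∈ F, ∀ x y : Fin f.1 → A,
          (∀ i, r.r (x i) (y i)) → r.r (f.2 x) (f.2 y)})) ∧
    ∀ n : ℕ, n ≠ 0 →
      (∀ (K : Type) [Field K], Nat.card K = 2 ^ n →
        Nonempty ({X : Subgroup (Matrix.SpecialLinearGroup (Fin 2) K) //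
          ∀ x : Matrix.SpecialLinearGroup (Fin 2) K,
            (∀ i j, x.1 i j = 0 ∨ x.1 i j = 1) → x ∈ X} ≃o Lam n)) ∧
      ∃ (A : Type) (_ : Finite A) (_ : Nonempty A) (F : Set (Σ k : ℕ, (Fin k → A) → A)),
        Nonempty (Lam n ≃o {r : Setoid A // ∀ f ∈ F, ∀ x y : Fin f.1 → A,
          (∀ i, r.r (x i) (y i)) → r.r (f.2 x) (f.2 y)}) := by
  refine ⟨fun L _ _ _ h => Pool.Agent.Helper71.SL.rep_le_seven L h, ?_⟩
  intro n hn
  have h0 : ∀ n : ℕ, Nonempty (H33WL.Lam n ≃o Lam n) := fun n => ⟨⟨Equiv.refl _, Iff.rfl⟩⟩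
  obtain ⟨e0⟩ := h0 n
  refine ⟨?_, rep_of_iso e0 (rep_Lam n hn)⟩
  intro K _ hK
  have hfin : Finite K := Nat.finite_of_card_ne_zero (by rw [hK]; positivity)
  have : Fintype K := Fintype.ofFinite K
  have hp : Fact (Nat.Prime 2) := ⟨Nat.prime_two⟩
  have hchar : CharP K 2 := by
    apply charP_of_card_eq_prime_pow (f := n)
    rw [← Nat.card_eq_fintype_card, hK]
  obtain ⟨e1⟩ := iso_Lam (K := K) hK
  let e2 : {X : Subgroup (Matrix.SpecialLinearGroup (Fin 2) K) //
        ∀ x : Matrix.SpecialLinearGroup (Fin 2) K,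
          (∀ i j, x.1 i j = 0 ∨ x.1 i j = 1) → x ∈ X} ≃o Set.Ici (SS K) :=
    ⟨Equiv.subtypeEquivRight fun X => (SS_le_iff X).symm, Iff.rfl⟩
  exact ⟨(e2.trans e1).trans e0⟩

end Pool.Agent.Results.MP_3b452d_lc.SevenElements
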